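import Pool.Agent.H29.TC.Targets
import Pool.Agent.H74.GLA.WC

/-!
# Module GB of the board thc_modules: bounds for the rotated Gaussian
-/

set_option autoImplicit false

open NumberField NumberField.InfinitePlace NumberField.Units
  NumberField.Units.dirichletUnitTheorem MeasureTheory Set Filter Complex
open scoped nonZeroDivisors ENNReal

namespace Pool.Agent.H27.THC

open Pool.Agent.H25.HK Pool.Agent.H28.RC Pool.Agent.H23.LB Pool.Agent.H29.TC

section
variable {K : Type} [Field K] [NumberField K]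

lemma gz_norm (S : Finset (RP K)) (φ : ℝ) (y : InfinitePlace K → ℝ) (x : K) :
    ‖GZ K S φ y x‖ = |ws K S y x| * Real.exp (-Real.pi * (Real.cos φ * qK K y x)) := by
  unfold GZ
  rw [norm_mul, Complex.norm_real, Real.norm_eq_abs, Complex.norm_exp]
  congr 2
  have : -(Real.pi : ℂ) * (cexp (φ * I) * ((qK K y x : ℝ) : ℂ)) =
      cexp (φ * I) * ((-Real.pi * qK K y x : ℝ) : ℂ) := by
    push_cast
    ring
  rw [this, Complex.re_mul_ofReal, Complex.exp_ofReal_mul_I_re]
  ring

lemma card_le (S : Finset (RP K)) : S.card ≤ Module.finrank ℚ K := by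
  classical
  have h1 : S.card ≤ Fintype.card (RP K) := Finset.card_le_univ S
  have h2 : Fintype.card (RP K) = nrRealPlaces K := by
    unfold nrRealPlaces
    exact Fintype.card_congr (Equiv.refl _)
  have h3 := card_add_two_mul_card_eq_rank K
  omega

lemma sum_le_qK (S : Finset (RP K)) (y : InfinitePlace K → ℝ) (x : K) :
    ∑ v ∈ S, Real.exp (y v.1) * (v.1 x) ^ 2 ≤ qK K y x := by
  unfold qK
  classical
  have h7 : ∑ v ∈ S, Real.exp (y v.1) * (v.1 x) ^ 2 =
      ∑ v ∈ S.map ⟨Subtype.val, Subtype.val_injective⟩,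
        Real.exp (y v) * (v x) ^ 2 := by
    rw [Finset.sum_map]
    rfl
  rw [h7]
  refine (Finset.sum_le_sum_of_subset_of_nonneg (Finset.subset_univ _)
    fun v _ _ => by positivity).trans (Finset.sum_le_sum fun v _ => ?_)
  have h8 : (1 : ℝ) ≤ v.mult := by
    exact_mod_cast one_le_mult
  have h9 : 0 ≤ Real.exp (y v) * (v x) ^ 2 := by positivity
  nlinarith

lemma ws_sq_le (S : Finset (RP K)) (y : InfinitePlace K → ℝ) (x : K) {c : ℝ} (hc : 0 < c)
    (hc1 : c ≤ 1) : |ws K S y x| ^ 2 ≤ c ^ (-(Module.finrank ℚ K : ℝ)) *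
      Real.exp (Real.pi * (c * qK K y x)) := by
  have hfac : ∀ v : RP K, (Real.exp (y v.1 / 2) * v.1 x) ^ 2 ≤
      c⁻¹ * Real.exp (Real.pi * (c * (Real.exp (y v.1) * (v.1 x) ^ 2))) := by
    intro v
    have h2 : (Real.exp (y v.1 / 2) * v.1 x) ^ 2 = Real.exp (y v.1) * (v.1 x) ^ 2 := by
      rw [mul_pow, ← Real.exp_nat_mul]
      congr 2
      push_cast
      ring
    rw [h2]
    set u := Real.exp (y v.1) * (v.1 x) ^ 2 with hu
    have hu0 : 0 ≤ u := by positivity
    have h3 : c * u ≤ Real.exp (Real.pi * (c * u)) := by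
      have h4 := Real.add_one_le_exp (Real.pi * (c * u))
      have h5 := Real.pi_gt_three
      have h6 : 0 ≤ c * u := mul_nonneg hc.le hu0
      nlinarith
    rw [inv_mul_eq_div, le_div_iff₀ hc]
    linarith [mul_comm c u]
  rw [abs_ws, ← Finset.prod_pow]
  calc ∏ v ∈ S, (Real.exp (y v.1 / 2) * v.1 x) ^ 2
      ≤ ∏ v ∈ S, c⁻¹ * Real.exp (Real.pi * (c * (Real.exp (y v.1) * (v.1 x) ^ 2))) :=
        Finset.prod_le_prod (fun v _ => by positivity) fun v _ => hfac v
    _ = c⁻¹ ^ S.card * Real.exp (Real.pi * (c * ∑ v ∈ S, Real.exp (y v.1) * (v.1 x) ^ 2)) := by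
        rw [Finset.prod_mul_distrib, Finset.prod_const, ← Real.exp_sum, Finset.mul_sum,
          Finset.mul_sum]
    _ ≤ _ := by
        refine mul_le_mul ?_ ?_ (Real.exp_pos _).le (Real.rpow_nonneg hc.le _)
        · rw [Real.rpow_neg hc.le, Real.rpow_natCast, ← inv_pow]
          exact pow_le_pow_right₀ ((one_le_inv₀ hc).mpr hc1) (card_le S)
        · refine Real.exp_le_exp.2 (mul_le_mul_of_nonneg_left ?_ Real.pi_pos.le)
          exact mul_le_mul_of_nonneg_left (sum_le_qK S y x) hc.le

end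

theorem pf_GB (hTH : T_TH) : T_GB := by
  intro K _ _ S M φ hM hφ y
  have hφ1 := abs_lt.1 hφ
  have hc : 0 < Real.cos φ := Real.cos_pos_of_mem_Ioo ⟨by linarith [hφ1.1], hφ1.2⟩
  have him : |((φ : ℂ) * I).im| < Real.pi / 2 := by
    have : ((φ : ℂ) * I).im = φ := by simp
    rw [this]
    exact hφ
  have hfact : ∀ (c : K → ℂ) (x : K), c x * ((ws K S y x : ℝ) : ℂ) *
      (cexp ((φ * I) * S.card / 2) * cexp (-Real.pi * (cexp (φ * I) * ((qK K y x : ℝ) : ℂ)))) =
      cexp (φ * I * S.card / 2) * (c x * GZ K S φ y x) := by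
    intro c x
    unfold GZ
    ring
  have hone : ‖cexp ((φ : ℂ) * I * S.card / 2)‖ = 1 := by
    rw [Complex.norm_exp]
    have : ((φ : ℂ) * I * S.card / 2).re = 0 := by
      have h : (φ : ℂ) * I * S.card / 2 = ((φ * S.card / 2 : ℝ) : ℂ) * I := by
        push_cast
        ring
      rw [h]
      simp
    rw [this, Real.exp_zero]
  refine ⟨fun x => ?_, ?_, fun c => ?_⟩
  · rw [gz_norm, mul_pow]
    have h1 := ws_sq_le S y x hc (Real.cos_le_one φ)
    have h2 : Real.exp (-Real.pi * (Real.cos φ * qK K y x)) ^ 2 =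
        Real.exp (-(Real.pi * (Real.cos φ * qK K y x))) *
          Real.exp (-Real.pi * Real.cos φ * qK K y x) := by
      rw [← Real.exp_nat_mul, ← Real.exp_add]
      congr 1
      push_cast
      ring
    rw [h2]
    calc |ws K S y x| ^ 2 * (Real.exp (-(Real.pi * (Real.cos φ * qK K y x))) *
          Real.exp (-Real.pi * Real.cos φ * qK K y x))
        ≤ (Real.cos φ ^ (-(Module.finrank ℚ K : ℝ)) *
            Real.exp (Real.pi * (Real.cos φ * qK K y x))) *
          (Real.exp (-(Real.pi * (Real.cos φ * qK K y x))) *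
          Real.exp (-Real.pi * Real.cos φ * qK K y x)) :=
          mul_le_mul_of_nonneg_right h1 (by positivity)
      _ = Real.cos φ ^ (-(Module.finrank ℚ K : ℝ)) *
            (Real.exp (Real.pi * (Real.cos φ * qK K y x)) *
          Real.exp (-(Real.pi * (Real.cos φ * qK K y x)))) *
          Real.exp (-Real.pi * Real.cos φ * qK K y x) := by ring
      _ = _ := by
          rw [← Real.exp_add, add_neg_cancel, Real.exp_zero, mul_one]
  · have h := Pool.Agent.H74.GLA.tz_summable hTH S M hM (fun _ => 1) (φ * I) him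
      (fun _ _ => by simp) y
    refine h.congr fun x => ?_
    rw [hfact (fun _ => 1) x, norm_mul, hone, one_mul, one_mul]
  · unfold tz
    rw [← tsum_mul_left]
    refine tsum_congr fun x => ?_
    exact hfact c x

end Pool.Agent.H27.THC
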